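import Pool.Agent.Q287.T3Meas

/-! Finitary codings of perfect matchings of the 3-regular tree (MP_b3cd0c_pr, Q1: proved).

The graph `T` (on the words in three letters without equal consecutive letters) is a tree in which
every vertex has three neighbours.  No factor of i.i.d. `Φ` whose output is almost surely a perfect
matching has a finite expected coding volume; in fact its coding radius `R` satisfies
`P(R > r) ≥ c 2^{-r}` for all `r`, for some `c > 0`. -/

namespace Pool.Agent.Results.MP_b3cd0c_pr.CodingVolume

open Pool.Agent.Q287.T3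

theorem result :
    T.IsTree ∧ (∀ v, (T.neighborSet v).ncard = 3) ∧
    (∀ Φ : Om → Set (Sym2 V), IsFactorPM Φ → ¬ FiniteExpectedCodingVolume Φ) ∧
    (∀ Φ : Om → Set (Sym2 V), IsFactorPM Φ →
      ∃ c : ENNReal, 0 < c ∧ ∀ r : ℕ, c ≤ 2 ^ r * mu {ω | (r : ℕ∞) < codingRadius Φ ω}) :=
  ⟨isTree, regular, fun _ h => infinite_expected_volume h, fun _ h => tail_lower_bound h⟩

end Pool.Agent.Results.MP_b3cd0c_pr.CodingVolume
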